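import Pool.Agent.TH133.PW.KunDefs
import Pool.Agent.TH720.LB.Stm

/-!
# The Kunneth projectors and the middle cohomology: definitions
-/

open CategoryTheory AlgebraicGeometry

universe u v

namespace Pool.Agent.TH720.MK

open Pool.Agent.H914 Pool.Agent.TH133.PW Pool.Agent.TH720.LB VarClass Obj WeilCohomology

section Alg

variable {K : Type*} [Field K] {V : Type*} [AddCommGroup V] [Module K V]

/-- `φ` is injective on `gr n`, and nilpotent on the `gr j` with `j < n`. -/
def CutsOutWeakly (gr : ℕ → Submodule K V) (n : ℕ) (φ : Module.End K V) : Prop :=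
  (∀ y ∈ gr n, φ y = 0 → y = 0) ∧ ∀ j < n, ∀ y ∈ gr j, ∃ r : ℕ, (φ ^ r) y = 0

/-- Some linear combination of the operators in `S` is injective on `gr n`, and nilpotent on the
`gr j` with `j < n`. -/
def CutsInSpan (gr : ℕ → Submodule K V) (n : ℕ) (S : Set (V →ₗ[K] V)) : Prop :=
  ∃ φ ∈ Submodule.span K S, CutsOutWeakly gr n φ

/-- For all `j < n`, `y` in `gr n` and `y'` in `gr j` some linear combination `φ` of the operators
in `S`, which may depend on `y` and `y'`, satisfies `φ y = y` and `φ y' = 0`. -/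
def SeparatesFrom (gr : ℕ → Submodule K V) (n : ℕ) (S : Set (V →ₗ[K] V)) : Prop :=
  ∀ j < n, ∀ y ∈ gr n, ∀ y' ∈ gr j, ∃ φ ∈ Submodule.span K S, φ y = y ∧ φ y' = 0

variable {A B : Type*} [Ring A] [Algebra K A] [Ring B] [Algebra K B]

/-- If `j < n` and `p(y) q(w) + p(y') q(w')` is orthogonal to the elements of `Z`, for `y`, `w`,
`y'`, `w'` of degrees `n`, `n`, `j`, `2 n - j`, then `tr (y w) = 0`. -/
def DetectsSumsFrom (gr : ℕ → Submodule K A) (n : ℕ) (tr : A →ₗ[K] K) (tr' : B →ₗ[K] K)
    (p q : A →ₐ[K] B) (Z : Set B) : Prop :=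
  ∀ j < n, ∀ y ∈ gr n, ∀ w ∈ gr n, ∀ y' ∈ gr j, ∀ w' ∈ gr (2 * n - j),
    OrthogonalTo tr' Z (p y * q w + p y' * q w') → tr (y * w) = 0

end Alg

variable {k : Type u} [Field k] {𝒱 : VarClass k} {ops : CycleOps 𝒱}

/-- A linear combination (with coefficients in `K`) of algebraic correspondences is injective on the
middle cohomology `H^n(Y)`, `n = dim Y`, and nilpotent on the `H^j(Y)` with `j < n`. -/
def MidWeak (Y : 𝒱.Obj) (W : WeilCohomology.{u, v} ops) : Prop :=
  CutsInSpan (W.gr Y) Y.dim (cycleOperators W Y Y.dim)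

/-- For every `y` in the middle cohomology `H^n(Y)`, `n = dim Y`, and every `y'` in `H^j(Y)` with
`j < n` some linear combination `φ` (with coefficients in `K`) of algebraic correspondences
satisfies `φ y = y` and `φ y' = 0`. -/
def MidPairs (Y : 𝒱.Obj) (W : WeilCohomology.{u, v} ops) : Prop :=
  SeparatesFrom (W.gr Y) Y.dim (cycleOperators W Y Y.dim)

/-- If `y`, `w` are classes in the middle cohomology `H^n(Y)`, `n = dim Y`, and `y'`, `w'` classes of
degrees `j` and `2 n - j`, `j < n`, and `y × w + y' × w'` is orthogonal to all algebraic cycles of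
codimension `n` on `Y × Y`, then `tr (y w) = 0`. -/
def MidDetects (Y : 𝒱.Obj) (W : WeilCohomology.{u, v} ops) : Prop :=
  DetectsSumsFrom (W.gr Y) Y.dim (W.tr Y) (W.tr (Y.prod Y)) (W.map (fst Y Y)) (W.map (snd Y Y))
    (algClasses W (Y.prod Y) Y.dim)

/-- `S` holds for `Y` and some theory in `𝒲` (which may depend on `Y`). -/
def ForOne (𝒲 : Set (WeilCohomology.{u, v} ops))
    (S : 𝒱.Obj → WeilCohomology.{u, v} ops → Prop) (Y : 𝒱.Obj) : Prop := ∃ W ∈ 𝒲, S Y W

/-- One rational cycle on `Y × Y` induces the projector onto the middle cohomology `H^n(Y)`,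
`n = dim Y`, for all theories in `𝒲`. -/
def MidKunneth (𝒲 : Set (WeilCohomology.{u, v} ops)) (Y : 𝒱.Obj) : Prop :=
  OneProjectorForAll 𝒲 Y Y.dim

/-- The Kunneth conjecture for `X`: for all `i` one rational cycle on `X × X` induces the projector
onto `H^i(X)` for all theories in `𝒲`. -/
def Kunneth (𝒲 : Set (WeilCohomology.{u, v} ops)) (X : 𝒱.Obj) : Prop :=
  ∀ i, OneProjectorForAll 𝒲 X i

/-- `Q` holds for all varieties of the class `C` whose dimension belongs to `S`. -/
def ForAll (C : 𝒱.Obj → Prop) (S : Set ℕ) (Q : 𝒱.Obj → Prop) : Prop :=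
  ∀ X, C X → X.dim ∈ S → Q X

/-- The following are equivalent: the Kunneth conjecture for all varieties of the class `C`; each of
the four statements about the middle cohomology for all varieties in `C` whose dimension belongs
to `S`. -/
def MiddleSuffices (𝒲 : Set (WeilCohomology.{u, v} ops)) (C : 𝒱.Obj → Prop) (S : Set ℕ) : Prop :=
  List.TFAE [ForAll C Set.univ (Kunneth 𝒲), ForAll C S (MidKunneth 𝒲),
    ForAll C S (ForOne 𝒲 MidWeak), ForAll C S (ForOne 𝒲 MidPairs),
    ForAll C S (ForOne 𝒲 MidDetects)]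

/-- For every theory in `𝒲` the `P m` look like the projective spaces with a hyperplane, and `E`
like a curve of positive genus with a divisor of degree one. -/
structure Models (𝒲 : Set (WeilCohomology.{u, v} ops)) (P : ℕ → 𝒱.Obj) (h : ∀ m, (P m).Cycles)
    (E : 𝒱.Obj) (e : E.Cycles) : Prop where
  dim : ∀ m, (P m).dim = m
  proj : ∀ W ∈ 𝒲, ∀ m, ProjLike W (P m) (h m)
  curve : ∀ W ∈ 𝒲, CurveLike W E e

/-- The class `C` is closed under the products with the `P m` and with `E`. -/
def ClosedUnder (P : ℕ → 𝒱.Obj) (E : 𝒱.Obj) (C : 𝒱.Obj → Prop) : Prop :=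
  (∀ X m, C X → C (X.prod (P m))) ∧ ∀ X, C X → C (X.prod E)

end Pool.Agent.TH720.MK
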