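import Pool.Agent.TH720.MK.Defs

/-!
# The Kunneth projectors of the product with a curve of positive genus
-/

open CategoryTheory AlgebraicGeometry Finset

universe u v

namespace Pool.Agent.TH720.MK

open Pool.Agent.H914 Pool.Agent.TH133.PW Pool.Agent.TH720.LB Pool.Agent.W534 Pool.Agent.W537
  VarClass Obj WeilCohomology

variable {k : Type u} [Field k] {𝒱 : VarClass k} {ops : CycleOps 𝒱}
  {W : WeilCohomology.{u, v} ops} {X C : 𝒱.Obj} {h : C.Cycles}

section curve

variable (hC : IsCurveLike W C h)
include hC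

omit hC in
/-- the basic computation, for an operator which acts as a scalar -/
lemma curve_push_scal {i : ℕ} {ε : W.K} {z : ((X.prod C).prod (X.prod C)).Cycles}
    (hz : ∀ y ∈ W.gr (X.prod C) (i + 1), W.corr (W.cl _ z) y = ε • y)
    {a : W.H X} (ha : a ∈ W.gr X i) {d : W.H (C.prod C)} (hd : d ∈ oddSpan W C) :
    W.push (snd (X.prod C) (X.prod C) ≫ fst X C) (W.cl _ z * W.map (kap X C) d *
      W.map (fst (X.prod C) (X.prod C) ≫ fst X C) a) =
        (ε * W.tr C (W.map (diag C) d)) • a := by
  induction hd using Submodule.span_induction with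
  | zero => simp
  | add x y _ _ hx hy =>
    rw [map_add, mul_add, add_mul, map_add, hx, hy, map_add, map_add, mul_add, add_smul]
  | smul r x _ hx =>
    rw [map_smul, mul_smul_comm, smul_mul_assoc, map_smul, hx, map_smul, map_smul, smul_smul,
      smul_eq_mul, mul_left_comm]
  | mem x hx =>
    obtain ⟨b, hb, c, hc, rfl⟩ := hx
    have e1 : W.map (kap X C) (W.map (fst C C) b * W.map (snd C C) c) =
        W.map (fst (X.prod C) (X.prod C)) (W.map (snd X C) b) *
          W.map (snd (X.prod C) (X.prod C)) (W.map (snd X C) c) := by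
      rw [map_mul (W.map (kap X C)), ← W.map_comp, ← W.map_comp, kap, Obj.lift_fst, Obj.lift_snd,
        W.map_comp, W.map_comp]
    have e2 : W.map (diag C) (W.map (fst C C) b * W.map (snd C C) c) = b * c := by
      have k1 : diag C ≫ snd C C = 𝟙 C := Obj.lift_snd _ _
      have k2 : diag C ≫ fst C C = 𝟙 C := Obj.lift_fst _ _
      rw [map_mul (W.map (diag C)), ← W.map_comp, ← W.map_comp, k1, k2, W.map_id, W.map_id]
    have hm : W.map (snd X C) b * W.map (fst X C) a ∈ W.gr (X.prod C) (i + 1) := by
      have := W.mul_mem (W.map_mem (snd X C) hb) (W.map_mem (fst X C) ha)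
      rwa [add_comm] at this
    -- the push-forward to the second factor
    have e3 : W.push (snd (X.prod C) (X.prod C)) (W.cl _ z *
        (W.map (fst (X.prod C) (X.prod C)) (W.map (snd X C) b) *
          W.map (snd (X.prod C) (X.prod C)) (W.map (snd X C) c)) *
        W.map (fst (X.prod C) (X.prod C)) (W.map (fst X C) a)) =
        (-1 : W.K) ^ i • (ε • (W.map (snd X C) b * W.map (fst X C) a) * W.map (snd X C) c) := by
      have k1 : W.cl _ z *
          (W.map (fst (X.prod C) (X.prod C)) (W.map (snd X C) b) *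
            W.map (snd (X.prod C) (X.prod C)) (W.map (snd X C) c)) *
          W.map (fst (X.prod C) (X.prod C)) (W.map (fst X C) a) =
          (-1 : W.K) ^ i • ((W.cl _ z * W.map (fst (X.prod C) (X.prod C))
            (W.map (snd X C) b * W.map (fst X C) a)) *
              W.map (snd (X.prod C) (X.prod C)) (W.map (snd X C) c)) := by
        rw [mul_assoc (W.cl _ z), mul_assoc
          (W.map (fst (X.prod C) (X.prod C)) (W.map (snd X C) b)),
          W.comm (W.map_mem (snd (X.prod C) (X.prod C)) (W.map_mem (snd X C) hc))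
            (W.map_mem (fst (X.prod C) (X.prod C)) (W.map_mem (fst X C) ha)),
          map_mul (W.map (fst (X.prod C) (X.prod C)))]
        rw [one_mul, mul_smul_comm, mul_smul_comm]
        simp only [mul_assoc]
      rw [k1, map_smul, W.push_mul, ← corr_apply, hz _ hm]
    rw [e1, e2, W.map_comp, W.push_comp, e3, map_smul]
    have e4 : W.map (snd X C) b * W.map (fst X C) a * W.map (snd X C) c =
        (-1 : W.K) ^ i • (W.map (snd X C) (b * c) * W.map (fst X C) a) := by
      rw [mul_assoc, W.comm (W.map_mem (fst X C) ha) (W.map_mem (snd X C) hc), mul_one,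
        mul_smul_comm, ← mul_assoc, ← map_mul (W.map (snd X C))]
    have hbc0 : b * c ∈ W.gr C (1 + 1) := W.mul_mem hb hc
    have hbc : b * c ∈ W.gr C (2 * 1) := hbc0
    have hs : (-1 : W.K) ^ i * (-1 : W.K) ^ i = 1 := by
      rw [← pow_add, ← two_mul, pow_mul]
      simp
    rw [smul_mul_assoc, e4, map_smul, map_smul, push_fst_mul hbc, smul_smul, smul_smul, smul_smul]
    congr 1
    linear_combination (ε * W.tr C (b * c)) * hs

/-- **The projector of `X` in degree `i` from the projector of `X × C` in degree `i + 1`.** -/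
theorem projector_flip {i : ℕ} {z : ((X.prod C).prod (X.prod C)).Cycles}
    (hz : ((X.prod C).prod (X.prod C)).IsCyc (X.prod C).dim z)
    (hz' : InducesProjector W (X.prod C) (i + 1) z) :
    ProjectorInSpan (W.gr X) i (cycleOperators W X X.dim) := by
  have hdim : (X.prod C).dim = X.dim + 1 := by rw [dim_prod X C, hC.dim]
  obtain ⟨δ, hδ, hδ1, hδ2⟩ := curve_delta hC
  -- the cycle on `X × X`
  have hT : (X.prod X).IsCyc X.dim (ops.push (qua X C) (ops.mul z (ops.pull (kap X C) δ))) := by
    refine ops.push_mem _ (ops.mul_mem hz (ops.pull_mem _ hδ)) ?_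
    simp only [dim_prod, hC.dim]
    omega
  have hTa : ∀ j, ∀ a ∈ W.gr X j,
      W.corr (W.cl _ (ops.push (qua X C) (ops.mul z (ops.pull (kap X C) δ)))) a =
        ((if j = i then (1 : W.K) else 0) * W.tr C (W.map (diag C) (W.cl _ δ))) • a := by
    intro j a ha
    have e1 : qua X C ≫ snd X X = snd _ _ ≫ fst X C := Obj.lift_snd _ _
    have e2 : qua X C ≫ fst X X = fst _ _ ≫ fst X C := Obj.lift_fst _ _
    rw [corr_apply, W.cl_push, W.cl_mul, W.cl_pull, ← W.push_mul, ← W.push_comp, ← W.map_comp,
      e1, e2]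
    refine curve_push_scal (fun y hy => ?_) ha hδ1
    rw [hz' _ y hy]
    by_cases hj : j = i
    · rw [if_pos (by omega), if_pos hj, one_smul]
    · rw [if_neg (by omega), if_neg hj, zero_smul]
  refine ⟨(W.tr C (W.map (diag C) (W.cl _ δ)))⁻¹ •
    W.corr (W.cl _ (ops.push (qua X C) (ops.mul z (ops.pull (kap X C) δ)))),
    Submodule.smul_mem _ _ (Submodule.subset_span ⟨_, hT, rfl⟩), fun j a ha => ?_⟩
  rw [LinearMap.smul_apply, hTa j a ha, smul_smul]
  by_cases hj : j = i
  · rw [if_pos hj, if_pos hj, one_mul, inv_mul_cancel₀ hδ2, one_smul]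
  · rw [if_neg hj, if_neg hj, zero_mul, mul_zero, zero_smul]

end curve

end Pool.Agent.TH720.MK
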