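import Pool.Agent.TH720.MP.Main
import Pool.Agent.TH720.MK.Defs

/-!
# The Kunneth projectors and the middle cohomology: operators
-/

open CategoryTheory AlgebraicGeometry Finset

universe u v

namespace Pool.Agent.TH720.MK

open Pool.Agent.H914 Pool.Agent.TH133.PW Pool.Agent.TH720.LB Pool.Agent.W534 Pool.Agent.W537
  VarClass Obj WeilCohomology
open Pool.Agent.TH720.MP (aeval_mem aeval_stable kmul kone)

section Alg

variable {K : Type*} [Field K] {V : Type*} [AddCommGroup V] [Module K V]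

/-- `φ` is the identity on `gr n`, and zero on the `gr j` with `j < n`. -/
def CutsOut (gr : ℕ → Submodule K V) (n : ℕ) (φ : Module.End K V) : Prop :=
  (∀ y ∈ gr n, φ y = y) ∧ ∀ j < n, ∀ y ∈ gr j, φ y = 0

end Alg

section Lin

variable {K V : Type*} [Field K] [AddCommGroup V] [Module K V] {gr : ℕ → Submodule K V}
  {A : Submodule K (Module.End K V)}

/-- The operator which cuts out `gr n`, from a weak one. -/
theorem cutsOut_of_weak [FiniteDimensional K V] (h1 : (1 : Module.End K V) ∈ A)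
    (hmul : ∀ a ∈ A, ∀ b ∈ A, a * b ∈ A) (hgr : ∀ a ∈ A, ∀ i, ∀ y ∈ gr i, a y ∈ gr i)
    {n : ℕ} {φ : Module.End K V} (hφ : φ ∈ A) (h : CutsOutWeakly gr n φ) :
    ∃ f ∈ A, CutsOut gr n f := by
  obtain ⟨hinj, hnil⟩ := h
  set N := Module.finrank K V with hN
  have hp0 : minpoly K φ ≠ 0 := minpoly.ne_zero (Algebra.IsIntegral.isIntegral φ)
  obtain ⟨q, hq, hnd⟩ := Polynomial.exists_eq_pow_rootMultiplicity_mul_and_not_dvd
    (minpoly K φ) hp0 0
  set a := Polynomial.rootMultiplicity 0 (minpoly K φ) with ha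
  rw [map_zero, sub_zero] at hq hnd
  have hcop : IsCoprime (Polynomial.X ^ N) q :=
    IsCoprime.pow_left ((Polynomial.irreducible_X.coprime_iff_not_dvd).2 hnd)
  obtain ⟨s, t, hst⟩ := hcop
  have hpow : ∀ r : ℕ, ∀ y ∈ gr n, (φ ^ r) y = 0 → y = 0 := by
    intro r
    induction r with
    | zero => intro y _ hy; simpa using hy
    | succ r ih =>
      intro y hy hy0
      rw [pow_succ, Module.End.mul_apply] at hy0
      exact hinj y hy (ih _ (hgr _ hφ _ _ hy) hy0)
  have hqy : ∀ y ∈ gr n, Polynomial.aeval φ q y = 0 := by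
    intro y hy
    have h2 : Polynomial.aeval φ (minpoly K φ) y = 0 := by
      rw [minpoly.aeval, LinearMap.zero_apply]
    rw [hq, map_mul, map_pow, Polynomial.aeval_X, Module.End.mul_apply] at h2
    exact hpow a _ (aeval_stable (fun y hy => hgr _ hφ _ _ hy) q y hy) h2
  refine ⟨Polynomial.aeval φ (s * Polynomial.X ^ N), aeval_mem h1 hmul hφ _, ?_, ?_⟩
  · intro y hy
    have h3 : Polynomial.aeval φ (s * Polynomial.X ^ N + t * q) y = y := by
      rw [hst, map_one, Module.End.one_apply]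
    rw [map_add, LinearMap.add_apply, map_mul (Polynomial.aeval φ) t q, Module.End.mul_apply,
      hqy y hy, map_zero, add_zero] at h3
    exact h3
  · intro j hjn y hy
    obtain ⟨r, hr⟩ := hnil j hjn y hy
    have h4 : (φ ^ N) y = 0 := by
      have := Module.End.ker_pow_le_ker_pow_finrank φ r (LinearMap.mem_ker.2 hr)
      exact LinearMap.mem_ker.1 this
    rw [map_mul, map_pow, Polynomial.aeval_X, Module.End.mul_apply, h4, map_zero]

/-- The operator which cuts out `gr n`, from the separation of pairs. -/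
theorem cutsOut_of_separates [FiniteDimensional K V] {S : Set (V →ₗ[K] V)}
    (hA : Submodule.span K S = A)
    (h1 : (1 : Module.End K V) ∈ A)
    (hmul : ∀ a ∈ A, ∀ b ∈ A, a * b ∈ A) (hgr : ∀ a ∈ A, ∀ i, ∀ y ∈ gr i, a y ∈ gr i)
    {n : ℕ} (h : SeparatesFrom gr n S) : ∃ f ∈ A, CutsOut gr n f := by
  have hsep : ∀ j < n, ∃ c ∈ A, (∀ y ∈ gr n, c y = 0) ∧
      ∀ y' ∈ gr j, c y' = y' := fun j hjn =>
    separate_two h1 hmul (IsNoetherian.noetherian _) (IsNoetherian.noetherian _)
      (fun b hb => hgr b hb n) (fun b hb => hgr b hb j)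
      (fun y hy y' hy' => by rw [← hA]; exact h j hjn y hy y' hy')
  have key : ∀ m ≤ n, ∃ e ∈ A, (∀ y ∈ gr n, e y = y) ∧
      ∀ j < m, ∀ y ∈ gr j, e y = 0 := by
    intro m
    induction m with
    | zero => exact fun _ => ⟨1, h1, fun y _ => rfl, fun j hj => absurd hj (Nat.not_lt_zero _)⟩
    | succ m ih =>
      intro hmn
      obtain ⟨e, he, he1, he2⟩ := ih (by omega)
      obtain ⟨c, hc, hc1, hc2⟩ := hsep m (by omega)
      refine ⟨e * (1 - c), hmul _ he _ (Submodule.sub_mem _ h1 hc), ?_, ?_⟩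
      · intro y hy
        rw [Module.End.mul_apply, LinearMap.sub_apply, Module.End.one_apply, hc1 y hy, sub_zero,
          he1 y hy]
      · intro j hj y hy
        rw [Module.End.mul_apply, LinearMap.sub_apply, Module.End.one_apply]
        by_cases hjm : j = m
        · subst hjm
          rw [hc2 y hy, sub_self, map_zero]
        · exact he2 j (by omega) _ (Submodule.sub_mem _ hy (hgr c hc j y hy))
  obtain ⟨e, he, he1, he2⟩ := key n le_rfl
  exact ⟨e, he, he1, he2⟩

end Lin

variable {k : Type u} [Field k] {𝒱 : VarClass k} {ops : CycleOps 𝒱}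
  {W : WeilCohomology.{u, v} ops} {X Y P : 𝒱.Obj} {h : P.Cycles}

/-- From the lower degrees to all degrees. -/
theorem cutsOut_full {f : Module.End W.K (W.H Y)} (hf : f ∈ KOp W Y Y 0)
    (hc : CutsOut (W.gr Y) Y.dim f) : ∃ f' ∈ KOp W Y Y 0, (∀ y ∈ W.gr Y Y.dim, f' y = y) ∧
      ∀ j, j ≠ Y.dim → ∀ y ∈ W.gr Y j, f' y = 0 := by
  obtain ⟨hf1, hf2⟩ := hc
  obtain ⟨ψ, hψ, hadj⟩ := KOp.exists_adjoint hf
  have hψ0 : ψ ∈ KOp W Y Y 0 := KOp.cast hψ (by ring)
  have hψ1 : ∀ b ∈ W.gr Y Y.dim, ψ b = b := by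
    intro b hb
    rw [← sub_eq_zero]
    apply nondeg_right
    intro c
    refine gr_induction (W.isInternal Y) (p := fun c => W.tr Y (c * (ψ b - b)) = 0) ?_ ?_ c
    · intro j c hc
      by_cases hj : j = Y.dim
      · subst hj
        rw [mul_sub, map_sub, ← hadj, hf1 c hc, sub_self]
      · exact W.tr_eq_zero (W.mul_mem hc (Submodule.sub_mem _ (kop_gr hψ0 _ hb) hb)) (by omega)
    · intro c c' h1 h2
      rw [add_mul, map_add, h1, h2, add_zero]
  have hψ2 : ∀ j, Y.dim < j → ∀ b ∈ W.gr Y j, ψ b = 0 := by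
    intro j hj b hb
    apply nondeg_right
    intro c
    refine gr_induction (W.isInternal Y) (p := fun c => W.tr Y (c * ψ b) = 0) ?_ ?_ c
    · intro i c hc
      by_cases hi : i + j = 2 * Y.dim
      · rw [← hadj, hf2 i (by omega) c hc, zero_mul, map_zero]
      · exact W.tr_eq_zero (W.mul_mem hc (kop_gr hψ0 _ hb)) hi
    · intro c c' h1 h2
      rw [add_mul, map_add, h1, h2, add_zero]
  refine ⟨ψ * f, kmul _ hψ0 _ hf, fun y hy => ?_, fun j hj y hy => ?_⟩
  · rw [Module.End.mul_apply, hf1 y hy, hψ1 y hy]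
  · rw [Module.End.mul_apply]
    rcases lt_trichotomy j Y.dim with h1 | h1 | h1
    · rw [hf2 j h1 y hy, map_zero]
    · exact absurd h1 hj
    · exact hψ2 j h1 _ (kop_gr hf j hy)

/-- The projectors of `X` from an operator on `X × P` which cuts out the middle cohomology. -/
theorem projector_of_cutsOut (hP : IsProjLike W P h) (hdim : X.dim ≤ P.dim + 1)
    {f₀ : Module.End W.K (W.H (X.prod P))} (hf₀ : f₀ ∈ KOp W (X.prod P) (X.prod P) 0)
    (hc : CutsOut (W.gr (X.prod P)) (X.prod P).dim f₀) {i : ℕ} (hi : i % 2 = (X.prod P).dim % 2) :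
    ProjectorInSpan (W.gr X) i (cycleOperators W X X.dim) := by
  obtain ⟨f, hf, hf1, hf2⟩ := cutsOut_full hf₀ hc
  have hn : (X.prod P).dim = X.dim + P.dim := dim_prod X P
  rw [ProjectorInSpan, span_cycleOperators0]
  by_cases hi2 : i ≤ 2 * X.dim
  swap
  · refine ⟨0, Submodule.zero_mem _, fun j x hx => ?_⟩
    split_ifs with hj
    · subst hj
      rw [W.gr_eq_bot X j (by omega)] at hx
      rw [(Submodule.mem_bot _).1 hx, map_zero]
    · rfl
  obtain ⟨a, ha, hia⟩ : ∃ a ≤ P.dim, i + 2 * a = X.dim + P.dim :=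
    ⟨(X.dim + P.dim - i) / 2, by omega, by omega⟩
  refine ⟨coe W X h a ∘ₗ f ∘ₗ inc W X h a,
    KOp.cast (KOp.comp (qop_coe hP ha).kop (KOp.comp hf (qop_inc hP a).kop)) (by ring), ?_⟩
  intro j x hx
  have hx' : inc W X h a x ∈ W.gr (X.prod P) (j + 2 * a) :=
    qop_mem (qop_inc hP a) hx (by push_cast; ring)
  rw [LinearMap.comp_apply, LinearMap.comp_apply]
  split_ifs with hj
  · subst hj
    rw [hia, ← hn] at hx'
    rw [hf1 _ hx', coe_inc hP ha, if_pos rfl]
  · rw [hf2 _ (by rw [hn]; omega) _ hx', map_zero]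

/-- The middle projector of `X × P` from the projectors of `X`. -/
theorem midProjector_of_kunneth (hP : IsProjLike W P h)
    (hX : ∀ i, i % 2 = (X.prod P).dim % 2 → ∃ z, (X.prod X).IsCyc X.dim z ∧
      InducesProjector W X i z) :
    ProjectorInSpan (W.gr (X.prod P)) (X.prod P).dim
      (cycleOperators W (X.prod P) (X.prod P).dim) := by
  have hn : (X.prod P).dim = X.dim + P.dim := dim_prod X P
  -- the operators
  have hE : ∀ a, ∃ E ∈ KOp W X X 0, 2 * a ≤ (X.prod P).dim →
      IsProjector (W.gr X) ((X.prod P).dim - 2 * a) E := by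
    intro a
    by_cases ha : 2 * a ≤ (X.prod P).dim
    · obtain ⟨z, hz, hz'⟩ := hX ((X.prod P).dim - 2 * a) (by omega)
      exact ⟨_, KOp.gen (p := X.dim) (by ring) hz, fun _ => hz'⟩
    · exact ⟨0, Submodule.zero_mem _, fun h0 => absurd h0 ha⟩
  choose E hE1 hE2 using hE
  rw [ProjectorInSpan, span_cycleOperators0]
  refine ⟨∑ a ∈ range (P.dim + 1),
    if 2 * a ≤ (X.prod P).dim then inc W X h a ∘ₗ E a ∘ₗ coe W X h a else 0,
    Submodule.sum_mem _ fun a ha => ?_, fun j y hy => ?_⟩
  · have ha' : a ≤ P.dim := by simp at ha; omega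
    split_ifs with h2
    · exact KOp.cast (KOp.comp (qop_inc hP a).kop (KOp.comp (hE1 a) (qop_coe hP ha').kop))
        (by ring)
    · exact Submodule.zero_mem _
  · rw [LinearMap.sum_apply]
    have hterm : ∀ a ∈ range (P.dim + 1),
        (if 2 * a ≤ (X.prod P).dim then inc W X h a ∘ₗ E a ∘ₗ coe W X h a else 0 :
          W.H (X.prod P) →ₗ[W.K] W.H (X.prod P)) y =
        if j = (X.prod P).dim then inc W X h a (coe W X h a y) else 0 := by
      intro a ha
      have ha' : a ≤ P.dim := by simp at ha; omega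
      by_cases hja : 2 * a ≤ j
      · have hc : coe W X h a y ∈ W.gr X (j - 2 * a) := qop_mem (qop_coe hP ha') hy (by omega)
        by_cases h2 : 2 * a ≤ (X.prod P).dim
        · rw [if_pos h2, LinearMap.comp_apply, LinearMap.comp_apply, hE2 a h2 _ _ hc]
          by_cases hj : j = (X.prod P).dim
          · rw [if_pos (by omega), if_pos hj]
          · rw [if_neg (by omega), if_neg hj, map_zero]
        · rw [if_neg h2, if_neg (by omega), LinearMap.zero_apply]
      · have hc : coe W X h a y = 0 := qop_mem_neg (qop_coe hP ha') hy (by omega)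
        rw [hc, map_zero, ite_self]
        by_cases h2 : 2 * a ≤ (X.prod P).dim
        · rw [if_pos h2, LinearMap.comp_apply, LinearMap.comp_apply, hc, map_zero, map_zero]
        · rw [if_neg h2, LinearMap.zero_apply]
    rw [Finset.sum_congr rfl hterm]
    split_ifs with hj
    · exact decomp hP y
    · exact Finset.sum_const_zero

end Pool.Agent.TH720.MK
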