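import Pool.Agent.TH720.MK.Lin
import Pool.Agent.TH720.MK.Flip

/-!
# The Kunneth projectors and the middle cohomology
-/

open CategoryTheory AlgebraicGeometry Finset

universe u v

namespace Pool.Agent.TH720.MK

open Pool.Agent.H914 Pool.Agent.TH133.PW Pool.Agent.TH720.LB Pool.Agent.W534 Pool.Agent.W537
  VarClass Obj WeilCohomology
open Pool.Agent.TH720.MP (aeval_mem aeval_stable kmul kone)

section Defs

variable {k : Type u} [Field k] {𝒱 : VarClass k} {ops : CycleOps 𝒱}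

/-- An algebraic cycle on `Y × Y` acts as the identity on the middle cohomology `H^n(Y)`,
`n = dim Y`, and as zero on the `H^j(Y)` with `j < n`. -/
def MidCycle (Y : 𝒱.Obj) (W : WeilCohomology.{u, v} ops) : Prop :=
  ∃ z, (Y.prod Y).IsCyc Y.dim z ∧ CutsOut (W.gr Y) Y.dim (W.corr (W.cl (Y.prod Y) z))

/-- For all `i` with `i ≡ p mod 2` one rational cycle on `X × X` induces the projector onto
`H^i(X)` for all theories in `𝒲`. -/
def KunnethParity (𝒲 : Set (WeilCohomology.{u, v} ops)) (X : 𝒱.Obj) (p : ℕ) : Prop :=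
  ∀ i, i % 2 = p % 2 → OneProjectorForAll 𝒲 X i

/-- The equivalences for one variety `X`, in terms of `Y` (which will be `X × P m`). -/
def OneVariety (𝒲 : Set (WeilCohomology.{u, v} ops)) (X Y : 𝒱.Obj) : Prop :=
  List.TFAE [KunnethParity 𝒲 X Y.dim, MidKunneth 𝒲 Y, ForOne 𝒲 MidCycle Y, ForOne 𝒲 MidWeak Y,
    ForOne 𝒲 MidPairs Y, ForOne 𝒲 MidDetects Y]

end Defs

variable {k : Type u} [Field k] {𝒱 : VarClass k} {ops : CycleOps 𝒱}
  {𝒲 : Set (WeilCohomology.{u, v} ops)}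
  {W : WeilCohomology.{u, v} ops} {X Y P : 𝒱.Obj} {h : P.Cycles}

theorem midCycle_of_kunneth (hne : 𝒲.Nonempty) (hY : MidKunneth 𝒲 Y) : ForOne 𝒲 MidCycle Y := by
  obtain ⟨z, hz, hz'⟩ := hY
  obtain ⟨W, hW⟩ := hne
  refine ⟨W, hW, z, hz, fun y hy => ?_, fun j hj y hy => ?_⟩
  · rw [hz' W hW _ y hy, if_pos rfl]
  · rw [hz' W hW _ y hy, if_neg hj.ne]

theorem midWeak_of_cycle (hY : MidCycle Y W) : MidWeak Y W := by
  obtain ⟨z, hz, h1, h2⟩ := hY
  refine ⟨_, Submodule.subset_span ⟨z, hz, rfl⟩, fun y hy h0 => ?_, fun j hj y hy => ⟨1, ?_⟩⟩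
  · rw [← h1 y hy]; exact h0
  · rw [pow_one]; exact h2 j hj y hy

theorem midPairs_of_cycle (hY : MidCycle Y W) : MidPairs Y W := by
  obtain ⟨z, hz, h1, h2⟩ := hY
  exact fun j hj y hy y' hy' =>
    ⟨_, Submodule.subset_span ⟨z, hz, rfl⟩, h1 y hy, h2 j hj y' hy'⟩

theorem cutsOut_of_midWeak (hY : MidWeak Y W) :
    ∃ f ∈ KOp W Y Y 0, CutsOut (W.gr Y) Y.dim f := by
  obtain ⟨φ, hφ, h⟩ := hY
  rw [span_cycleOperators0] at hφ
  exact cutsOut_of_weak kone kmul (fun _ ha i _ hy => kop_gr ha i hy) hφ h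

theorem cutsOut_of_midPairs (hY : MidPairs Y W) :
    ∃ f ∈ KOp W Y Y 0, CutsOut (W.gr Y) Y.dim f :=
  cutsOut_of_separates span_cycleOperators0 kone kmul (fun _ ha i _ hy => kop_gr ha i hy) hY

theorem midPairs_of_detects (hY : MidDetects Y W) : MidPairs Y W := by
  intro j hj y hy y' hy'
  rw [span_cycleOperators0]
  have hj2 : j ≤ 2 * Y.dim := by omega
  -- the subspace of the pairs `(φ y, φ y')`
  let M : Submodule W.K (W.H Y × W.H Y) := (KOp W Y Y 0).map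
    ((LinearMap.applyₗ y).prod (LinearMap.applyₗ y'))
  by_contra hcon
  have hnot : ((y, 0) : W.H Y × W.H Y) ∉ M := by
    rintro ⟨φ, hφ, hφy⟩
    have h1 : φ y = y := congrArg Prod.fst hφy
    have h2 : φ y' = 0 := congrArg Prod.snd hφy
    exact hcon ⟨φ, hφ, h1, h2⟩
  obtain ⟨f, hf, hfM⟩ := Submodule.exists_le_ker_of_notMem hnot
  obtain ⟨w, hw⟩ := exists_dual (W := W) (X := Y) (f ∘ₗ LinearMap.inl W.K _ _)
  obtain ⟨w', hw'⟩ := exists_dual (W := W) (X := Y) (f ∘ₗ LinearMap.inr W.K _ _)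
  have hff : ∀ x x', f (x, x') = W.tr Y (x * w) + W.tr Y (x' * w') := by
    intro x x'
    rw [← hw, ← hw', LinearMap.comp_apply, LinearMap.comp_apply, ← map_add]
    simp
  have hi2 : Y.dim ≤ 2 * Y.dim := by omega
  have hmid : 2 * Y.dim - Y.dim = Y.dim := by omega
  apply hf
  rw [hff, zero_mul, map_zero, add_zero, ← tr_mul_proj hi2 hy w]
  have hwm : proj (W.isInternal Y) (2 * Y.dim - Y.dim) w ∈ W.gr Y Y.dim := by
    rw [hmid]
    exact proj_mem (W.isInternal Y) Y.dim w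
  apply hY j hj y hy _ hwm y' hy' _ (proj_mem (W.isInternal Y) (2 * Y.dim - j) w')
  rintro _ ⟨z, hz, rfl⟩
  have hφ : W.corr (W.cl (Y.prod Y) z) ∈ KOp W Y Y 0 := KOp.gen (p := Y.dim) (by ring) hz
  rw [mul_add, map_add, tr_cycle_ext, tr_cycle_ext, tr_mul_proj hi2 (kop_gr hφ _ hy),
    tr_mul_proj hj2 (kop_gr hφ j hy'), ← hff]
  exact hfM ⟨_, hφ, rfl⟩

theorem midDetects_of_pairs (hY : MidPairs Y W) : MidDetects Y W := by
  intro j hj y hy w _ y' hy' w' _ horth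
  obtain ⟨φ, hφ, h1, h2⟩ := hY j hj y hy y' hy'
  have key : ∀ φ ∈ Submodule.span W.K (cycleOperators W Y Y.dim),
      W.tr Y (φ y * w) + W.tr Y (φ y' * w') = 0 := by
    intro φ hφ
    induction hφ using Submodule.span_induction with
    | mem φ hφ =>
      obtain ⟨z, hz, rfl⟩ := hφ
      have := horth _ ⟨z, hz, rfl⟩
      rwa [mul_add, map_add, tr_cycle_ext, tr_cycle_ext] at this
    | zero => simp
    | add φ ψ _ _ h1 h2 =>
      rw [LinearMap.add_apply, LinearMap.add_apply, add_mul, add_mul, map_add, map_add]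
      linear_combination h1 + h2
    | smul a φ _ h1 =>
      rw [LinearMap.smul_apply, LinearMap.smul_apply, smul_mul_assoc, smul_mul_assoc, map_smul,
        map_smul, ← smul_add, h1, smul_zero]
  have := key φ hφ
  rwa [h1, h2, zero_mul, map_zero, add_zero] at this

/-- **One variety.** -/
theorem one_tfae (hne : 𝒲.Nonempty) (h𝒲 : ∀ X : 𝒱.Obj, SameTracesAll 𝒲 X)
    (hP : ∀ W ∈ 𝒲, IsProjLike W P h) (hdim : X.dim ≤ P.dim + 1) : OneVariety 𝒲 X (X.prod P) := by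
  have back : ∀ W ∈ 𝒲, (∃ f ∈ KOp W (X.prod P) (X.prod P) 0,
      CutsOut (W.gr (X.prod P)) (X.prod P).dim f) → KunnethParity 𝒲 X (X.prod P).dim := by
    rintro W hW ⟨f, hf, hc⟩ i hi
    exact oneProjector_of_span (h𝒲 X) hW (projector_of_cutsOut (hP W hW) hdim hf hc hi)
  unfold OneVariety
  tfae_have 1 → 2 := by
    intro hX
    obtain ⟨W, hW⟩ := hne
    refine oneProjector_of_span (h𝒲 _) hW (midProjector_of_kunneth (hP W hW) fun i hi => ?_)
    obtain ⟨z, hz, hz'⟩ := hX i hi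
    exact ⟨z, hz, hz' W hW⟩
  tfae_have 2 → 3 := midCycle_of_kunneth hne
  tfae_have 3 → 4 := fun ⟨W, hW, hY⟩ => ⟨W, hW, midWeak_of_cycle hY⟩
  tfae_have 3 → 5 := fun ⟨W, hW, hY⟩ => ⟨W, hW, midPairs_of_cycle hY⟩
  tfae_have 4 → 1 := fun ⟨W, hW, hY⟩ => back W hW (cutsOut_of_midWeak hY)
  tfae_have 5 → 1 := fun ⟨W, hW, hY⟩ => back W hW (cutsOut_of_midPairs hY)
  tfae_have 5 → 6 := fun ⟨W, hW, hY⟩ => ⟨W, hW, midDetects_of_pairs hY⟩
  tfae_have 6 → 5 := fun ⟨W, hW, hY⟩ => ⟨W, hW, midPairs_of_detects hY⟩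
  tfae_finish

/-- **All varieties.** -/
theorem all_tfae (hne : 𝒲.Nonempty) (h𝒲 : ∀ X : 𝒱.Obj, SameTracesAll 𝒲 X)
    {P : ℕ → 𝒱.Obj} {h : ∀ m, (P m).Cycles} {E : 𝒱.Obj} {e : E.Cycles} (hM : Models 𝒲 P h E e)
    {C : 𝒱.Obj → Prop} (hC : ClosedUnder P E C) {S : Set ℕ} (hS : S.Infinite) :
    MiddleSuffices 𝒲 C S := by
  have one : ∀ (X : 𝒱.Obj) (m : ℕ), X.dim ≤ m + 1 → OneVariety 𝒲 X (X.prod (P m)) :=
    fun X m hm => one_tfae hne h𝒲 (fun W hW => (hM.proj W hW m).to) (by rw [hM.dim]; exact hm)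
  -- the product with the curve
  have hE : E.dim = 1 := by
    obtain ⟨W, hW⟩ := hne
    exact (hM.curve W hW).dim
  have flip : ∀ (X : 𝒱.Obj) (i : ℕ), OneProjectorForAll 𝒲 (X.prod E) (i + 1) →
      OneProjectorForAll 𝒲 X i := by
    rintro X i ⟨z, hz, hz'⟩
    obtain ⟨W, hW⟩ := hne
    exact oneProjector_of_span (h𝒲 X) hW (projector_flip (hM.curve W hW).to hz (hz' W hW))
  -- from the middle of the varieties whose dimension belongs to `S`
  have back : ∀ Q : 𝒱.Obj → Prop,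
      (∀ (X : 𝒱.Obj) (m : ℕ), X.dim ≤ m + 1 → Q (X.prod (P m)) →
        KunnethParity 𝒲 X (X.prod (P m)).dim) →
      ForAll C S Q → ForAll C Set.univ (Kunneth 𝒲) := by
    intro Q hQ hall X hX _ i
    obtain ⟨n, hn, hnX⟩ := hS.exists_gt (2 * X.dim + 2)
    have step : ∀ X' : 𝒱.Obj, C X' → X'.dim ≤ X.dim + 1 → ∀ i, i % 2 = n % 2 →
        OneProjectorForAll 𝒲 X' i := by
      intro X' hX' hd' i hi
      have hd : (X'.prod (P (n - X'.dim))).dim = n := by
        rw [dim_prod X' (P (n - X'.dim)), hM.dim]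
        omega
      exact hQ X' (n - X'.dim) (by omega) (hall _ (hC.1 X' _ hX') (by rw [hd]; exact hn)) i
        (by rw [hd, hi])
    by_cases hi : i % 2 = n % 2
    · exact step X hX (Nat.le_succ _) i hi
    · exact flip X i (step (X.prod E) (hC.2 X hX) (by rw [dim_prod X E, hE]) (i + 1) (by omega))
  have b3 := fun X m hm => ((one X m hm).out 3 0).1
  have b4 := fun X m hm => ((one X m hm).out 4 0).1
  have b5 := fun X m hm => ((one X m hm).out 5 0).1
  unfold MiddleSuffices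
  tfae_have 1 → 2 := fun hall X hX _ => hall X hX (Set.mem_univ _) X.dim
  tfae_have 2 → 3 := by
    intro hall X hX hq
    obtain ⟨W, hW, hY⟩ := midCycle_of_kunneth hne (hall X hX hq)
    exact ⟨W, hW, midWeak_of_cycle hY⟩
  tfae_have 2 → 4 := by
    intro hall X hX hq
    obtain ⟨W, hW, hY⟩ := midCycle_of_kunneth hne (hall X hX hq)
    exact ⟨W, hW, midPairs_of_cycle hY⟩
  tfae_have 2 → 5 := by
    intro hall X hX hq
    obtain ⟨W, hW, hY⟩ := midCycle_of_kunneth hne (hall X hX hq)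
    exact ⟨W, hW, midDetects_of_pairs (midPairs_of_cycle hY)⟩
  tfae_have 3 → 1 := back _ b3
  tfae_have 4 → 1 := back _ b4
  tfae_have 5 → 1 := back _ b5
  tfae_finish

end Pool.Agent.TH720.MK
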